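import Pool.Agent.Y7.LN.Stm2

/-!
# Project LN: the size of the main modes
-/

open Set Filter Topology MeasureTheory Metric

set_option autoImplicit false

namespace Pool.Agent.Y261.LN

open Pool.Agent.Y5 (E3)
open Pool.Agent.Y303.SK
open Pool.Agent.Y303.EJ (ParE)
open Pool.Agent.Y7.LN

theorem bdd_of_cs {Ω : Set E3} {F : E3 → E3} (h : CS Ω F) : ∃ A : ℝ, 0 ≤ A ∧ ∀ x, ‖F x‖ ≤ A := by
  have hc : Continuous F := h.smooth.continuous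
  have hs : HasCompactSupport F := h.cpt
  obtain ⟨A, hA⟩ := hs.exists_bound_of_continuous hc
  exact ⟨A, (norm_nonneg _).trans (hA 0), hA⟩

theorem sc_bd (p : E3) (ρ A : ℝ) (F : E3 → E3) (hρ : 0 < ρ) (hF : ∀ x, ‖F x‖ ≤ A) (x : E3) :
    ‖sc p ρ F x‖ ≤ (ρ * √ρ)⁻¹ * A := by
  unfold sc
  rw [norm_smul, Real.norm_eq_abs, abs_of_nonneg (by positivity)]
  exact mul_le_mul_of_nonneg_left (hF _) (by positivity)

theorem key (ρ L K D : ℝ) (hρ : 0 < ρ) (hL : 0 ≤ L) (hK : 0 < K) (hD : K ≤ D)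
    (h : L * (ρ ^ 2 * √ρ) = D) : (ρ * √ρ)⁻¹ ≤ (K ^ (3 / 5 : ℝ))⁻¹ * L ^ (3 / 5 : ℝ) := by
  have e1 : ρ ^ 2 * √ρ = ρ ^ (5 / 2 : ℝ) := by
    rw [Real.sqrt_eq_rpow, ← Real.rpow_natCast, ← Real.rpow_add hρ]
    norm_num
  have e2 : ρ * √ρ = ρ ^ (3 / 2 : ℝ) := by
    rw [Real.sqrt_eq_rpow]
    nth_rewrite 1 [← Real.rpow_one ρ]
    rw [← Real.rpow_add hρ]
    norm_num
  have e3 : (ρ ^ (5 / 2 : ℝ)) ^ (3 / 5 : ℝ) = ρ ^ (3 / 2 : ℝ) := by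
    rw [← Real.rpow_mul hρ.le]
    norm_num
  have h1 : K ^ (3 / 5 : ℝ) ≤ L ^ (3 / 5 : ℝ) * ρ ^ (3 / 2 : ℝ) := by
    rw [← e3, ← Real.mul_rpow hL (by positivity), ← e1, h]
    exact Real.rpow_le_rpow hK.le hD (by norm_num)
  have hK' : 0 < K ^ (3 / 5 : ℝ) := Real.rpow_pos_of_pos hK _
  have hρ' : 0 < ρ ^ (3 / 2 : ℝ) := Real.rpow_pos_of_pos hρ _
  rw [e2, inv_eq_one_div, inv_mul_eq_div, div_le_div_iff₀ hρ' hK', one_mul]
  exact h1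

theorem t_SUP : S_SUP := by
  intro p Ψ H a κ h q q' G δ η r α ε lm L hPk hP
  obtain ⟨A, hA0, hA⟩ := bdd_of_cs hPk.Ψcs
  obtain ⟨A', hA0', hA'⟩ := bdd_of_cs hPk.Hcs
  have hq1 : q' < 1 := hPk.qq.trans hPk.q1
  have hq0 := hPk.q'0
  have hc0 : 0 < 1 - q' ^ 2 := by nlinarith
  set K : ℝ := κ * a * √(1 - q' ^ 2) with hK
  have hK0 : 0 < K := by
    have := hPk.κ0
    have := hPk.a0
    have := Real.sqrt_pos.2 hc0
    positivity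
  refine ⟨(A + A') * (K ^ (3 / 5 : ℝ))⁻¹, by positivity, fun n => ?_⟩
  have hα1 : α n ≤ 1 := by nlinarith [hP.α0 n, hP.ε0 n, hP.αε n]
  have hε1 : ε n ≤ 1 := by nlinarith [hP.α0 n, hP.ε0 n, hP.αε n]
  have hr := hP.r0 n
  have hr1 := hP.r0 (n + 1)
  have hstep : r (n + 1) ≤ r n := by
    have := hP.rstep n
    nlinarith
  have hmono : r (n + 1) * √(r (n + 1)) ≤ r n * √(r n) :=
    mul_le_mul hstep (Real.sqrt_le_sqrt hstep) (Real.sqrt_nonneg _) hr.le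
  have hpos : 0 < r (n + 1) * √(r (n + 1)) := mul_pos hr1 (Real.sqrt_pos.2 hr1)
  have hinv : (r n * √(r n))⁻¹ ≤ (r (n + 1) * √(r (n + 1)))⁻¹ := inv_anti₀ hpos hmono
  have hbd : ∀ x, ‖psi p Ψ H r α ε n x‖ ≤ (A + A') * (r (n + 1) * √(r (n + 1)))⁻¹ := by
    intro x
    unfold psi
    have h1 := sc_bd p (r n) A Ψ hr hA x
    have h2 := sc_bd p (r (n + 1)) A' H hr1 hA' x
    have h3 : ‖α n • sc p (r n) Ψ x‖ ≤ (r (n + 1) * √(r (n + 1)))⁻¹ * A := by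
      rw [norm_smul, Real.norm_eq_abs, abs_of_pos (hP.α0 n)]
      calc α n * ‖sc p (r n) Ψ x‖ ≤ 1 * ‖sc p (r n) Ψ x‖ :=
            mul_le_mul_of_nonneg_right hα1 (norm_nonneg _)
        _ = ‖sc p (r n) Ψ x‖ := one_mul _
        _ ≤ (r n * √(r n))⁻¹ * A := h1
        _ ≤ (r (n + 1) * √(r (n + 1)))⁻¹ * A := mul_le_mul_of_nonneg_right hinv hA0
    have h4 : ‖ε n • sc p (r (n + 1)) H x‖ ≤ (r (n + 1) * √(r (n + 1)))⁻¹ * A' := by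
      rw [norm_smul, Real.norm_eq_abs, abs_of_pos (hP.ε0 n)]
      calc ε n * ‖sc p (r (n + 1)) H x‖ ≤ 1 * ‖sc p (r (n + 1)) H x‖ :=
            mul_le_mul_of_nonneg_right hε1 (norm_nonneg _)
        _ = ‖sc p (r (n + 1)) H x‖ := one_mul _
        _ ≤ _ := h2
    calc ‖α n • sc p (r n) Ψ x + ε n • sc p (r (n + 1)) H x‖ ≤
          ‖α n • sc p (r n) Ψ x‖ + ‖ε n • sc p (r (n + 1)) H x‖ := norm_add_le _ _
      _ ≤ (r (n + 1) * √(r (n + 1)))⁻¹ * A + (r (n + 1) * √(r (n + 1)))⁻¹ * A' :=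
          add_le_add h3 h4
      _ = (A + A') * (r (n + 1) * √(r (n + 1)))⁻¹ := by ring
  have hLr := hP.Lr (n + 1)
  have hα' : √(1 - q' ^ 2) ≤ α (n + 1) := by
    have h1 := hP.αε (n + 1)
    have h2 := hP.εr (n + 1)
    have h3 := hP.rstep (n + 1)
    have h4 := hP.r0 (n + 2)
    have h5 : r (n + 1 + 1) ^ 2 ≤ (q' * r (n + 1)) ^ 2 := pow_le_pow_left₀ h4.le h3 2
    have h6 : ε (n + 1) ^ 2 * r (n + 1) ^ 2 ≤ q' ^ 2 * r (n + 1) ^ 2 := by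
      rw [mul_pow] at h5
      exact h2.trans h5
    have h7 : ε (n + 1) ^ 2 ≤ q' ^ 2 := le_of_mul_le_mul_right h6 (by positivity)
    rw [Real.sqrt_le_left (hP.α0 (n + 1)).le]
    linarith
  have hKD : K ≤ κ * a * α (n + 1) := by
    rw [hK]
    exact mul_le_mul_of_nonneg_left hα' (mul_nonneg hPk.κ0.le hPk.a0.le)
  have hL0 : 0 ≤ L (n + 1) := by
    have h1 : 0 < L (n + 1) * (r (n + 1) ^ 2 * √(r (n + 1))) := by
      rw [hLr]; exact lt_of_lt_of_le hK0 hKD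
    have h2 : 0 < r (n + 1) ^ 2 * √(r (n + 1)) :=
      mul_pos (by positivity) (Real.sqrt_pos.2 hr1)
    exact ((pos_iff_pos_of_mul_pos h1).2 h2).le
  have hkey := key (r (n + 1)) (L (n + 1)) K _ hr1 hL0 hK0 hKD hLr
  have hfin : (A + A') * (r (n + 1) * √(r (n + 1)))⁻¹ ≤
      (A + A') * (K ^ (3 / 5 : ℝ))⁻¹ * L (n + 1) ^ (3 / 5 : ℝ) := by
    rw [mul_assoc]
    exact mul_le_mul_of_nonneg_left hkey (by positivity)
  unfold nk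
  refine ciSup_le fun x => ?_
  rw [norm_iteratedFDeriv_zero]
  exact (hbd x).trans hfin

end Pool.Agent.Y261.LN
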